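import Pool.Agent.helper69.SN.SpecA

/-!
Row sn:aNXT (A5).
-/

open scoped Pointwise ContDiff
open MeasureTheory Set Filter Topology

set_option linter.unusedVariables false

namespace Pool.Agent.helper69.SN

open Pool.Agent.helper83.SC

/-- `dPh` of order one is homogeneous in the direction. -/
theorem NXT_smul (hDER : aDER_stmt) {m n : ℕ} (B : Fin n → Mat m) (K : ℝ) (A M : Mat m) :
    dPh B 1 (K • A) M = K * dPh B 1 A M := by
  have h1 := (hDER B (K • A) M 0 0).1
  have h2 := (hDER B A M 0 (K * 0)).1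
  have h3 : HasDerivAt (fun s : ℝ => K * s) K 0 := by
    simpa using (hasDerivAt_id (0 : ℝ)).const_mul K
  have h4 := HasDerivAt.comp (0 : ℝ) h2 h3
  have h5 : (fun s : ℝ => dPh B 0 (K • A) (M + s • (K • A)))
      = ((fun s : ℝ => dPh B 0 A (M + s • A)) ∘ fun s : ℝ => K * s) := by
    funext s
    have e1 : dPh B 0 (K • A) (M + s • (K • A)) = Ph B (M + s • (K • A)) :=
      (hDER B (K • A) (M + s • (K • A)) 0 0).2
    have e2 : dPh B 0 A (M + (K * s) • A) = Ph B (M + (K * s) • A) :=
      (hDER B A (M + (K * s) • A) 0 0).2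
    show dPh B 0 (K • A) (M + s • (K • A)) = dPh B 0 A (M + (K * s) • A)
    rw [e1, e2, smul_smul, mul_comm s K]
  rw [h5] at h1
  have h6 := h1.unique h4
  simp only [zero_add, zero_smul, add_zero, mul_zero] at h6
  rw [h6]; ring

/-- aNXT. -/
theorem aNXT_of (hREC : aREC_stmt) (hDER : aDER_stmt) (hDNN : aDNN_stmt) (hCLO : aCLO_stmt) :
    aNXT_stmt := by
  intro m n A hA S j hj K hK M hM
  set B : Fin n → Mat m := sc (wt S K ∅ 0) A with hB
  have hBpsd : Psd B := by
    intro i
    show (wt S K ∅ 0 i • A i).PosSemidef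
    have hw : 0 ≤ wt S K ∅ 0 i := by
      unfold wt
      split_ifs <;> simp [hK.le]
    exact (hA i).smul hw
  have hAj : (A j).PosSemidef := hA j
  have hin : ∀ s : ℝ, 0 ≤ s → M + s • A j ∈ GG B := fun s hs =>
    (hCLO B hBpsd).2.1 M (s • A j) hM (hAj.smul hs)
  -- the recursion
  have hrec := hREC (sc (wt (insert j S) K ∅ 0) A) j (M + A j)
  have hup : Function.update (sc (wt (insert j S) K ∅ 0) A) j 0 = B := by
    funext i
    by_cases hi : i = j
    · subst hi
      simp [hB, sc, wt, hj]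
    · simp [Function.update_of_ne hi, hB, sc, wt, hi]
  have hdir : sc (wt (insert j S) K ∅ 0) A j = K • A j := by
    simp [sc, wt]
  rw [hup, hdir, NXT_smul hDER] at hrec
  -- monotonicity
  have hmono : dPh B 2 (A j) M ≤ dPh B 1 (A j) (M + A j) := by
    -- second derivative monotone along the line
    have hd1 : ∀ s : ℝ, HasDerivAt (fun s : ℝ => dPh B 1 (A j) (M + s • A j))
        (dPh B 2 (A j) (M + s • A j)) s := fun s => (hDER B (A j) M 1 s).1
    have hd2 : ∀ s : ℝ, HasDerivAt (fun s : ℝ => dPh B 2 (A j) (M + s • A j))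
        (dPh B 3 (A j) (M + s • A j)) s := fun s => (hDER B (A j) M 2 s).1
    have hmon2 : MonotoneOn (fun s : ℝ => dPh B 2 (A j) (M + s • A j)) (Set.Ici 0) := by
      apply monotoneOn_of_deriv_nonneg (convex_Ici 0)
      · exact fun s _ => (hd2 s).continuousAt.continuousWithinAt
      · exact fun s _ => (hd2 s).differentiableAt.differentiableWithinAt
      · intro s hs
        rw [interior_Ici] at hs
        rw [(hd2 s).deriv]
        exact (hDNN B hBpsd (A j) _ hAj (hin s (le_of_lt hs))).1 3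
    have h20 : ∀ s : ℝ, 0 ≤ s → dPh B 2 (A j) M ≤ dPh B 2 (A j) (M + s • A j) := by
      intro s hs
      have := hmon2 (Set.mem_Ici.2 le_rfl) (Set.mem_Ici.2 hs) hs
      simpa using this
    -- the function `s ↦ dPh 1 (M + s A) - s dPh 2 M` is monotone
    have hmon1 : MonotoneOn (fun s : ℝ => dPh B 1 (A j) (M + s • A j) - s * dPh B 2 (A j) M)
        (Set.Ici 0) := by
      have hd : ∀ s : ℝ, HasDerivAt
          (fun s : ℝ => dPh B 1 (A j) (M + s • A j) - s * dPh B 2 (A j) M)
          (dPh B 2 (A j) (M + s • A j) - 1 * dPh B 2 (A j) M) s := fun s =>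
        (hd1 s).sub ((hasDerivAt_id s).mul_const _)
      apply monotoneOn_of_deriv_nonneg (convex_Ici 0)
      · exact fun s _ => (hd s).continuousAt.continuousWithinAt
      · exact fun s _ => (hd s).differentiableAt.differentiableWithinAt
      · intro s hs
        rw [interior_Ici] at hs
        rw [(hd s).deriv]
        have := h20 s (le_of_lt hs)
        linarith
    have h01 := hmon1 (Set.mem_Ici.2 (le_refl (0 : ℝ))) (Set.mem_Ici.2 zero_le_one) zero_le_one
    simp only [zero_smul, add_zero, zero_mul, sub_zero, one_smul, one_mul] at h01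
    have h0 : 0 ≤ dPh B 1 (A j) M := (hDNN B hBpsd (A j) M hAj hM).1 1
    linarith
  have hq : 0 ≤ Ph B (M + A j) := by
    have h1 := hin 1 zero_le_one
    rw [one_smul] at h1
    exact (hCLO B hBpsd).2.2.1 _ h1
  rw [hrec]
  have : K * dPh B 2 (A j) M ≤ Ph B (M + A j) + K * dPh B 1 (A j) (M + A j) := by
    nlinarith [mul_le_mul_of_nonneg_left hmono hK.le]
  calc dPh B 2 (A j) M = K⁻¹ * (K * dPh B 2 (A j) M) := by
        field_simp
    _ ≤ K⁻¹ * (Ph B (M + A j) + K * dPh B 1 (A j) (M + A j)) :=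
        mul_le_mul_of_nonneg_left this (inv_nonneg.2 hK.le)

end Pool.Agent.helper69.SN
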